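import Mathlib

/-!
# Almost every union of two rotated triangular lattices is a dense forest

The plane is `ℂ`, a rotation is the multiplication by a complex number of absolute value one. For almost all
`(θ₁, θ₂)` no line direction is a direction of lattice vectors of both rotated lattices. So for every direction the
line flow is minimal modulo one of the two lattices; by compactness of the circle of directions the time needed to
come `ε`-close to the union is bounded.
-/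

set_option autoImplicit false

open Complex MeasureTheory Set Filter Topology

namespace Pool.Agent.Results.MP_e7d22a_nt.TwoLattices

instance : Fact (0 < 2 * Real.pi) := ⟨Real.two_pi_pos⟩

/-- the second generator `(1/2, √3/2)` of the lattice -/
noncomputable def ω : ℂ := ⟨1 / 2, √3 / 2⟩

/-- the triangular lattice `Λ = ℤ (1, 0) + ℤ (1/2, √3/2)` -/
def Lam : Set ℂ := {z | ∃ m n : ℤ, z = m + n * ω}

/-- the rotation of the plane by the angle `θ ∈ ℝ / 2πℤ` -/
noncomputable def rot (θ : AddCircle (2 * Real.pi)) (z : ℂ) : ℂ := (AddCircle.toCircle θ : ℂ) * z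

/-- the union of the `k` sets `r_{θ i}(Λ) + x i` -/
def TBG (k : ℕ) (x : Fin k → ℂ) (θ : Fin k → AddCircle (2 * Real.pi)) : Set ℂ :=
  ⋃ i : Fin k, (fun l => rot (θ i) l + x i) '' Lam

/-- dense forests: every segment of length `V ε` contains a point at distance at most `ε` from `Y` -/
def DenseForest (Y : Set ℂ) : Prop :=
  ∃ V : ℝ → ℝ, ∀ ε : ℝ, 0 < ε → ε < 1 → 0 < V ε ∧
    ∀ a b : ℂ, dist a b = V ε → ∃ p ∈ segment ℝ a b, ∃ y ∈ Y, dist p y ≤ ε

/-! ### Irrational rotations of the circle -/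

lemma rotation (ρ : ℝ) (hρ : Irrational ρ) (ε : ℝ) (hε : 0 < ε) :
    ∃ N : ℕ, ∀ γ : ℝ, ∃ n : ℕ, n ≤ N ∧ ∃ m : ℤ, |γ + n * ρ - m| ≤ ε := by
  obtain ⟨K, hK⟩ := exists_nat_gt (1 / ε)
  obtain ⟨p, q, hq0, -, hpq⟩ := Real.exists_int_int_abs_mul_sub_le ρ (Nat.succ_pos K)
  set δ : ℝ := q * ρ - p with hδ
  have hδε : |δ| ≤ ε := by
    refine hpq.trans ?_
    rw [div_le_iff₀ (by positivity)]
    rw [div_lt_iff₀ hε] at hK
    push_cast
    nlinarith
  have hδ0 : δ ≠ 0 := by
    intro h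
    apply hρ
    have hq : (q : ℝ) ≠ 0 := by exact_mod_cast hq0.ne'
    refine ⟨(p : ℚ) / q, ?_⟩
    push_cast
    rw [div_eq_iff hq]
    linarith
  have hδp : 0 < |δ| := abs_pos.2 hδ0
  obtain ⟨q', rfl⟩ : ∃ q' : ℕ, q = q' := ⟨q.toNat, (Int.toNat_of_nonneg hq0.le).symm⟩
  refine ⟨(⌊1 / |δ|⌋₊ + 1) * q', fun γ => ?_⟩
  -- choose the representative of `γ` so that the steps `δ` lead to an integer
  rcases lt_or_gt_of_ne hδ0 with hneg | hpos
  · -- δ < 0
    set f : ℝ := Int.fract γ with hf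
    have hf0 : 0 ≤ f := Int.fract_nonneg γ
    have hf1 : f < 1 := Int.fract_lt_one γ
    set j : ℕ := ⌊f / |δ|⌋₊ with hj
    have hj1 : (j : ℝ) * |δ| ≤ f := by
      have := Nat.floor_le (div_nonneg hf0 hδp.le)
      rwa [le_div_iff₀ hδp] at this
    have hj2 : f < (j + 1) * |δ| := by
      have := Nat.lt_floor_add_one (f / |δ|)
      rwa [div_lt_iff₀ hδp] at this
    refine ⟨j * q', ?_, ⌊γ⌋ + j * p, ?_⟩
    · apply Nat.mul_le_mul_right
      refine le_trans (Nat.floor_mono ?_) (Nat.le_succ _)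
      exact div_le_div_of_nonneg_right hf1.le hδp.le
    · have e : γ + ((j * q' : ℕ) : ℝ) * ρ - ((⌊γ⌋ + j * p : ℤ) : ℝ) = f + j * δ := by
        rw [hf, hδ, Int.fract]
        push_cast
        ring
      rw [e, abs_of_neg hneg] at *
      rw [abs_of_nonneg (by linarith)]
      linarith
  · set f : ℝ := Int.fract (-γ) with hf
    have hf0 : 0 ≤ f := Int.fract_nonneg _
    have hf1 : f < 1 := Int.fract_lt_one _
    set j : ℕ := ⌊f / |δ|⌋₊ with hj
    have hj1 : (j : ℝ) * |δ| ≤ f := by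
      have := Nat.floor_le (div_nonneg hf0 hδp.le)
      rwa [le_div_iff₀ hδp] at this
    have hj2 : f < (j + 1) * |δ| := by
      have := Nat.lt_floor_add_one (f / |δ|)
      rwa [div_lt_iff₀ hδp] at this
    refine ⟨j * q', ?_, -⌊-γ⌋ + j * p, ?_⟩
    · apply Nat.mul_le_mul_right
      refine le_trans (Nat.floor_mono ?_) (Nat.le_succ _)
      exact div_le_div_of_nonneg_right hf1.le hδp.le
    · have e : γ + ((j * q' : ℕ) : ℝ) * ρ - ((-⌊-γ⌋ + j * p : ℤ) : ℝ) = -(f - j * δ) := by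
        rw [hf, hδ, Int.fract]
        push_cast
        ring
      rw [e, abs_neg]
      rw [abs_of_pos hpos] at *
      rw [abs_of_nonneg (by linarith)]
      linarith

/-! ### Lines in an irrational direction -/

lemma omega_im_pos : 0 < ω.im := by
  unfold ω
  positivity

/-- coordinates with respect to `1, ω` -/
lemma coords (z : ℂ) : ∃ a b : ℝ, z = a + b * ω := by
  have h := omega_im_pos.ne'
  refine ⟨z.re - z.im / ω.im * ω.re, z.im / ω.im, ?_⟩
  apply Complex.ext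
  · simp
  · simp
    field_simp

/-- no nonzero lattice vector is a real multiple of `v` -/
def Irr (v : ℂ) : Prop := ∀ m n : ℤ, (m ≠ 0 ∨ n ≠ 0) → ∀ r : ℝ, (m + n * ω : ℂ) ≠ r * v

lemma line_dense (v : ℂ) (hv0 : v ≠ 0) (hv : Irr v) (ε : ℝ) (hε : 0 < ε) :
    ∃ T : ℝ, 0 < T ∧ ∀ x : ℂ, ∃ t : ℝ, 0 ≤ t ∧ t ≤ T ∧ ∃ l ∈ Lam, ‖x + t * v - l‖ ≤ ε := by
  obtain ⟨a, b, hab⟩ := coords v
  have ha : a ≠ 0 := by
    intro ha
    have hb : (b : ℂ) ≠ 0 := by
      intro hb
      apply hv0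
      rw [hab, ha, hb]
      simp
    apply hv 0 1 (Or.inr one_ne_zero) (1 / b)
    rw [hab, ha]
    push_cast
    field_simp
    ring
  have hap : 0 < |a| := abs_pos.2 ha
  obtain ⟨s, hs, hsa⟩ : ∃ s : ℤ, (s = 1 ∨ s = -1) ∧ (s : ℝ) * |a| = a := by
    rcases lt_or_gt_of_ne ha with h | h
    · exact ⟨-1, Or.inr rfl, by rw [abs_of_neg h]; push_cast; ring⟩
    · exact ⟨1, Or.inl rfl, by rw [abs_of_pos h]; push_cast; ring⟩
  have hss : (s : ℝ) * s = 1 := by
    rcases hs with h | h <;> rw [h] <;> norm_num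
  have hρ : Irrational (b / |a|) := by
    rintro ⟨q, hq⟩
    have hden : (q.den : ℝ) ≠ 0 := by exact_mod_cast q.den_ne_zero
    have hb : b * q.den = q.num * |a| := by
      have h1 : (q : ℝ) = q.num / q.den := by
        rw [← Rat.cast_natCast, ← Rat.cast_intCast, ← Rat.cast_div, Rat.num_div_den]
      rw [h1, div_eq_div_iff hden hap.ne'] at hq
      linarith
    apply hv (s * q.den) q.num (Or.inl (by
      rcases hs with h | h <;> rw [h] <;> simp)) (q.den / |a|)
    rw [hab]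
    have e1 : ((s : ℂ) * (q.den : ℂ)) = ((q.den / |a| * a : ℝ) : ℂ) := by
      rw [← hsa]
      have : (q.den : ℝ) / |a| * (s * |a|) = s * q.den := by field_simp
      rw [hsa]
      rw [← hsa, abs_mul, abs_abs]
      have hs1 : |(s : ℝ)| = 1 := by rcases hs with h | h <;> rw [h] <;> norm_num
      rw [hs1, one_mul, this]
      push_cast
      ring
    have e2 : ((q.num : ℂ)) = ((q.den / |a| * b : ℝ) : ℂ) := by
      have : (q.den : ℝ) / |a| * b = q.num := by
        field_simp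
        linarith
      rw [this]
      push_cast
      rfl
    push_cast at e1 e2 ⊢
    rw [e1, e2]
    ring
  obtain ⟨N, hN⟩ := rotation (b / |a|) hρ (ε / (‖ω‖ + 1)) (by positivity)
  refine ⟨(N + 1) / |a|, by positivity, fun x => ?_⟩
  obtain ⟨α, β, hx⟩ := coords x
  set f : ℝ := ⌈s * α⌉ - s * α with hf
  have hf0 : 0 ≤ f := by rw [hf]; linarith [Int.le_ceil (s * α)]
  have hf1 : f < 1 := by rw [hf]; linarith [Int.ceil_lt_add_one (s * α)]
  obtain ⟨n, hnN, m, hm⟩ := hN (β + f * (b / |a|))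
  have hnN' : (n : ℝ) ≤ N := by exact_mod_cast hnN
  refine ⟨(f + n) / |a|, by positivity, ?_, (s * (⌈s * α⌉ + n) : ℤ) + m * ω,
    ⟨s * (⌈s * α⌉ + n), m, rfl⟩, ?_⟩
  · apply div_le_div_of_nonneg_right _ hap.le
    linarith
  · have e1 : α + (f + n) / |a| * a = ((s * (⌈s * α⌉ + n) : ℤ) : ℝ) := by
      have h1 : (f + n) / |a| * a = (f + n) * s := by
        rw [div_mul_eq_mul_div, div_eq_iff hap.ne']
        linear_combination (-(f + n)) * hsa
      rw [h1, hf]
      push_cast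
      linear_combination (-α) * hss
    have e2 : x + ((f + n) / |a| : ℝ) * v - (((s * (⌈s * α⌉ + n) : ℤ) : ℂ) + m * ω) =
        ((β + f * (b / |a|) + n * (b / |a|) - m : ℝ) : ℂ) * ω := by
      have e3 : (((s * (⌈s * α⌉ + n) : ℤ) : ℝ) : ℂ) = ((s * (⌈s * α⌉ + n) : ℤ) : ℂ) := by
        push_cast
        rfl
      rw [hx, hab, ← e3, ← e1]
      push_cast
      ring
    rw [e2, norm_mul, Complex.norm_real, Real.norm_eq_abs]
    calc |β + f * (b / |a|) + n * (b / |a|) - m| * ‖ω‖ ≤ ε / (‖ω‖ + 1) * ‖ω‖ := by gcongr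
      _ ≤ ε := by
        rw [div_mul_eq_mul_div, div_le_iff₀ (by positivity)]
        nlinarith [norm_nonneg ω]

/-! ### The union of two lattices -/

lemma dense_of_good (x : Fin 2 → ℂ) (θ : Fin 2 → AddCircle (2 * Real.pi))
    (hgood : ∀ u : ℂ, ‖u‖ = 1 → ∃ i, Irr ((starRingEnd ℂ) (AddCircle.toCircle (θ i) : ℂ) * u)) :
    DenseForest (TBG 2 x θ) := by
  have key : ∀ ε : ℝ, 0 < ε → ∃ T : ℝ, 0 < T ∧ ∀ u : ℂ, ‖u‖ = 1 → ∀ z : ℂ,
      ∃ t : ℝ, 0 ≤ t ∧ t ≤ T ∧ ∃ y ∈ TBG 2 x θ, ‖z + t * u - y‖ ≤ ε := by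
    intro ε hε
    have hcomp : IsCompact (Metric.sphere (0 : ℂ) 1) := isCompact_sphere 0 1
    have := hcomp.induction_on
      (p := fun U => ∃ T : ℝ, 0 < T ∧ ∀ u ∈ U, ∀ z : ℂ,
        ∃ t : ℝ, 0 ≤ t ∧ t ≤ T ∧ ∃ y ∈ TBG 2 x θ, ‖z + t * u - y‖ ≤ ε)
      ⟨1, one_pos, fun u hu => absurd hu (notMem_empty u)⟩
      (fun U W hUW ⟨T, hT, h⟩ => ⟨T, hT, fun u hu => h u (hUW hu)⟩)
      (fun U W ⟨T, hT, h⟩ ⟨T', hT', h'⟩ => ⟨max T T', lt_max_of_lt_left hT, fun u hu z => by
        rcases hu with hu | hu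
        · obtain ⟨t, h0, h1, h2⟩ := h u hu z
          exact ⟨t, h0, h1.trans (le_max_left _ _), h2⟩
        · obtain ⟨t, h0, h1, h2⟩ := h' u hu z
          exact ⟨t, h0, h1.trans (le_max_right _ _), h2⟩⟩)
      (fun u₀ hu₀ => by
        rw [mem_sphere_zero_iff_norm] at hu₀
        obtain ⟨i, hi⟩ := hgood u₀ hu₀
        set e : ℂ := (AddCircle.toCircle (θ i) : ℂ) with he
        have hee : e * (starRingEnd ℂ) e = 1 := by
          rw [Complex.mul_conj, Complex.normSq_eq_norm_sq, he, Circle.norm_coe]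
          norm_num
        have hne : ‖e‖ = 1 := Circle.norm_coe _
        have hv0 : (starRingEnd ℂ) e * u₀ ≠ 0 := by
          apply mul_ne_zero
          · intro h
            rw [h, mul_zero] at hee
            exact zero_ne_one hee
          · intro h
            rw [h, norm_zero] at hu₀
            exact zero_ne_one hu₀
        obtain ⟨T, hT, hline⟩ := line_dense _ hv0 hi (ε / 2) (half_pos hε)
        refine ⟨Metric.ball u₀ (ε / (2 * (T + 1))),
          mem_nhdsWithin_of_mem_nhds (Metric.ball_mem_nhds _ (by positivity)), T, hT, ?_⟩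
        intro u hu z
        rw [mem_ball_iff_norm] at hu
        obtain ⟨t, ht0, htT, l, hl, hlt⟩ := hline ((starRingEnd ℂ) e * (z - x i))
        refine ⟨t, ht0, htT, e * l + x i, ?_, ?_⟩
        · exact mem_iUnion.2 ⟨i, l, hl, rfl⟩
        · have e1 : z + t * u - (e * l + x i) =
              e * ((starRingEnd ℂ) e * (z - x i) + t * ((starRingEnd ℂ) e * u₀) - l) + t * (u - u₀) := by
            linear_combination (-(z - x i) - t * u₀) * hee
          rw [e1]
          refine (norm_add_le _ _).trans ?_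
          rw [norm_mul, hne, one_mul, norm_mul, Complex.norm_real, Real.norm_eq_abs, abs_of_nonneg ht0]
          have h2 : t * ‖u - u₀‖ ≤ T * (ε / (2 * (T + 1))) := by gcongr
          have h3 : T * (ε / (2 * (T + 1))) ≤ ε / 2 := by
            rw [mul_div_assoc', div_le_div_iff₀ (by positivity) (by positivity)]
            nlinarith
          linarith)
    obtain ⟨T, hT, h⟩ := this
    exact ⟨T, hT, fun u hu => h u (by rw [mem_sphere_zero_iff_norm]; exact hu)⟩
  choose! V hV using key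
  refine ⟨V, fun ε hε _ => ⟨(hV ε hε).1, fun a b hab => ?_⟩⟩
  have hV0 := (hV ε hε).1
  set u : ℂ := (b - a) / (V ε : ℂ) with hu
  have hVc : (V ε : ℂ) ≠ 0 := by exact_mod_cast hV0.ne'
  have hu1 : ‖u‖ = 1 := by
    rw [hu, norm_div, Complex.norm_real, Real.norm_eq_abs, abs_of_pos hV0, ← hab, dist_comm, Complex.dist_eq]
    rw [div_self]
    rw [← Complex.dist_eq, dist_comm, hab]
    exact hV0.ne'
  obtain ⟨t, ht0, htV, y, hy, hyt⟩ := (hV ε hε).2 u hu1 a
  refine ⟨a + t * u, ?_, y, hy, by rw [Complex.dist_eq]; exact hyt⟩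
  rw [segment_eq_image']
  refine ⟨t / V ε, ⟨by positivity, by rw [div_le_one hV0]; exact htV⟩, ?_⟩
  simp only [Complex.real_smul]
  rw [hu]
  push_cast
  field_simp

/-! ### Almost all pairs of angles -/

/-- the differences of angles for which the rotated lattices have parallel vectors -/
def Bad : Set (AddCircle (2 * Real.pi)) :=
  {δ | ∃ l₁ ∈ Lam, ∃ l₂ ∈ Lam, l₁ ≠ 0 ∧ l₂ ≠ 0 ∧ ∃ r : ℝ, (AddCircle.toCircle δ : ℂ) * l₁ = r * l₂}

lemma Lam_countable : Lam.Countable := by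
  have : Lam = range (fun p : ℤ × ℤ => (p.1 : ℂ) + p.2 * ω) := by
    ext z
    constructor
    · rintro ⟨m, n, h⟩
      exact ⟨(m, n), h.symm⟩
    · rintro ⟨⟨m, n⟩, h⟩
      exact ⟨m, n, h.symm⟩
  rw [this]
  exact countable_range _

lemma Bad_countable : Bad.Countable := by
  have : Bad ⊆ ⋃ l₁ ∈ Lam, ⋃ l₂ ∈ Lam, {δ : AddCircle (2 * Real.pi) |
      (AddCircle.toCircle δ : ℂ) ∈ ({((‖l₁‖ / ‖l₂‖ : ℝ) : ℂ) * l₂ / l₁, -(((‖l₁‖ / ‖l₂‖ : ℝ) : ℂ) * l₂ / l₁)} : Set ℂ)} := by
    rintro δ ⟨l₁, h₁, l₂, h₂, h₁0, h₂0, r, hr⟩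
    simp only [mem_iUnion]
    refine ⟨l₁, h₁, l₂, h₂, ?_⟩
    have hn := congrArg norm hr
    rw [norm_mul, Circle.norm_coe, one_mul, norm_mul, Complex.norm_real, Real.norm_eq_abs] at hn
    have hl₂ : 0 < ‖l₂‖ := norm_pos_iff.2 h₂0
    have hr' : |r| = ‖l₁‖ / ‖l₂‖ := by rw [eq_div_iff hl₂.ne']; exact hn.symm
    have e : (AddCircle.toCircle δ : ℂ) = r * l₂ / l₁ := by rw [eq_div_iff h₁0]; exact hr
    simp only [mem_ofPred_eq, mem_insert_iff, mem_singleton_iff]
    rw [e, ← hr']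
    rcases abs_choice r with h | h
    · left; rw [h]
    · right; rw [h]; push_cast; ring
  refine Countable.mono this ?_
  refine Lam_countable.biUnion fun l₁ _ => Lam_countable.biUnion fun l₂ _ => ?_
  apply Set.Finite.countable
  apply Set.Finite.preimage
  · intro δ _ δ' _ h
    exact AddCircle.injective_toCircle (Real.two_pi_pos.ne') (Circle.coe_injective h)
  · exact (Set.finite_singleton _).insert _

lemma lattice_ne_zero (m n : ℤ) (h : m ≠ 0 ∨ n ≠ 0) : (m + n * ω : ℂ) ≠ 0 := by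
  intro h0
  have him := congrArg Complex.im h0
  have hre := congrArg Complex.re h0
  simp at him hre
  rcases him with hn | hn
  · rw [hn] at hre
    simp at hre
    rcases h with h | h
    · exact h hre
    · exact h hn
  · exact omega_im_pos.ne' hn

lemma good_of_not_bad (θ : Fin 2 → AddCircle (2 * Real.pi)) (h : θ 0 - θ 1 ∉ Bad) :
    ∀ u : ℂ, ‖u‖ = 1 → ∃ i, Irr ((starRingEnd ℂ) (AddCircle.toCircle (θ i) : ℂ) * u) := by
  intro u hu
  by_contra hcon
  push Not at hcon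
  have hex : ∀ i, ∃ l ∈ Lam, l ≠ 0 ∧ ∃ r : ℝ, (AddCircle.toCircle (θ i) : ℂ) * l = r * u := by
    intro i
    have hi := hcon i
    unfold Irr at hi
    push Not at hi
    obtain ⟨m, n, hmn, r, hr⟩ := hi
    refine ⟨m + n * ω, ⟨m, n, rfl⟩, lattice_ne_zero m n hmn, r, ?_⟩
    rw [hr]
    have hee : (AddCircle.toCircle (θ i) : ℂ) * (starRingEnd ℂ) (AddCircle.toCircle (θ i) : ℂ) = 1 := by
      rw [Complex.mul_conj, Complex.normSq_eq_norm_sq, Circle.norm_coe]
      norm_num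
    linear_combination ((r : ℂ) * u) * hee
  obtain ⟨l₁, h₁, h₁0, r₁, hr₁⟩ := hex 0
  obtain ⟨l₂, h₂, h₂0, r₂, hr₂⟩ := hex 1
  apply h
  refine ⟨l₁, h₁, l₂, h₂, h₁0, h₂0, r₁ / r₂, ?_⟩
  have he₂ : (AddCircle.toCircle (θ 1) : ℂ) ≠ 0 := Circle.coe_ne_zero _
  have hr₂0 : (r₂ : ℂ) ≠ 0 := by
    intro h0
    rw [h0, zero_mul] at hr₂
    exact (mul_ne_zero he₂ h₂0) hr₂
  have e : (AddCircle.toCircle (θ 0 - θ 1) : ℂ) * (AddCircle.toCircle (θ 1) : ℂ) =
      (AddCircle.toCircle (θ 0) : ℂ) := by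
    rw [← Circle.coe_mul, ← AddCircle.toCircle_add, sub_add_cancel]
  apply mul_left_cancel₀ he₂
  push_cast
  rw [div_mul_eq_mul_div, mul_div_assoc', eq_div_iff hr₂0]
  calc (AddCircle.toCircle (θ 1) : ℂ) * ((AddCircle.toCircle (θ 0 - θ 1) : ℂ) * l₁) * r₂
      = ((AddCircle.toCircle (θ 0 - θ 1) : ℂ) * (AddCircle.toCircle (θ 1) : ℂ)) * l₁ * r₂ := by ring
    _ = (r₁ * u) * r₂ := by rw [e, hr₁]
    _ = r₁ * (r₂ * u) := by ring
    _ = r₁ * ((AddCircle.toCircle (θ 1) : ℂ) * l₂) := by rw [hr₂]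
    _ = (AddCircle.toCircle (θ 1) : ℂ) * (r₁ * l₂) := by ring

lemma ae_not_bad : ∀ᵐ θ : Fin 2 → AddCircle (2 * Real.pi), θ 0 - θ 1 ∉ Bad := by
  rw [ae_iff]
  have e : {θ : Fin 2 → AddCircle (2 * Real.pi) | ¬ θ 0 - θ 1 ∉ Bad} =
      ⋃ c ∈ Bad, {θ : Fin 2 → AddCircle (2 * Real.pi) | θ 0 - θ 1 = c} := by
    ext θ
    simp
  rw [e, measure_biUnion_null_iff Bad_countable]
  intro c _
  have hmeas : MeasurableSet {q : AddCircle (2 * Real.pi) × AddCircle (2 * Real.pi) | q.1 - q.2 = c} :=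
    (isClosed_eq (continuous_fst.sub continuous_snd) continuous_const).measurableSet
  have h1 := (volume_preserving_finTwoArrow (AddCircle (2 * Real.pi))).measure_preimage
    hmeas.nullMeasurableSet
  have h2 : volume {q : AddCircle (2 * Real.pi) × AddCircle (2 * Real.pi) | q.1 - q.2 = c} = 0 := by
    rw [Measure.volume_eq_prod, Measure.measure_prod_null hmeas]
    filter_upwards with a
    have : Prod.mk a ⁻¹' {q : AddCircle (2 * Real.pi) × AddCircle (2 * Real.pi) | q.1 - q.2 = c} = {a - c} := by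
      ext b
      simp only [mem_preimage, mem_ofPred_eq, mem_singleton_iff]
      constructor
      · intro h; rw [← h]; abel
      · intro h; rw [h]; abel
    rw [this, ← Metric.closedBall_zero, AddCircle.volume_closedBall]
    simp [Real.two_pi_pos.le]
  rw [h2] at h1
  exact h1

/-- **For almost all parameters `(θ₁, θ₂, x₁, x₂)` the union of the two rotated and translated triangular lattices
is a dense forest.** -/
theorem result :
    ∀ᵐ p : (Fin 2 → AddCircle (2 * Real.pi)) × (Fin 2 → ℂ), DenseForest (TBG 2 p.2 p.1) := by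
  have h := Measure.quasiMeasurePreserving_fst (μ := (volume : Measure (Fin 2 → AddCircle (2 * Real.pi))))
    (ν := (volume : Measure (Fin 2 → ℂ))) |>.ae ae_not_bad
  filter_upwards [h] with p hp
  exact dense_of_good p.2 p.1 (good_of_not_bad p.1 hp)

end Pool.Agent.Results.MP_e7d22a_nt.TwoLattices
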